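import Pool.Agent.U360.RN.Two
import Pool.Agent.U360.PO.Law

/-!
# Rubin's conjecture up to a factor: the class group law
-/

set_option autoImplicit false
set_option linter.unusedSectionVars false

open NumberField IsDedekindDomain Filter Topology

noncomputable section

namespace Pool.Agent.U360.RN

open Pool.Agent.K3h30.RS Pool.Agent.U360.RS Pool.Agent.U360.AS Pool.Agent.U360.PO
  Pool.Agent.K3h8.RS Pool.Agent.K3h25.RS

variable {F H G : Type} [Field F] [NumberField F] [Field H] [NumberField H] [Algebra F H]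
  [CommGroup G] [Finite G] [MulSemiringAction G H]

variable [hG : IsGaloisGroup G F H]

/-- adding prime ideals which do not split completely -/
theorem rq_addE0 (N : ℕ) (D₁ : RubinData F H G) (h₁ : RQ N D₁)
    [DecidableEq (HeightOneSpectrum (𝓞 F))] (E : Finset (HeightOneSpectrum (𝓞 F)))
    (hE : ∀ v ∈ E, ¬ SplitsIn H v) :
    ∃ D₂ : RubinData F H G, D₂.S = D₁.S ∪ E ∧ RQ N D₂ := by
  induction E using Finset.induction_on with
  | empty => exact ⟨D₁, by rw [Finset.union_empty], h₁⟩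
  | insert v E hvE ih =>
    obtain ⟨D₂, hS, h₂⟩ := ih fun u hu => hE u (Finset.mem_insert_of_mem hu)
    by_cases hv : v ∈ D₂.S
    · refine ⟨D₂, ?_, h₂⟩
      rw [Finset.union_insert, ← hS, Finset.insert_eq_of_mem hv]
    · have hσ : D₂.σ v ≠ 1 := fun h => hE v (Finset.mem_insert_self v E)
        ((spl_iff_splitsIn (G := G) v).1 ((spl_iff D₂ hv).1 h))
      refine ⟨addN D₂ v hv hσ, ?_, rq_addN D₂ N v hv hσ h₂⟩
      change Finset.cons v D₂.S hv = _
      rw [Finset.cons_eq_insert, hS, Finset.union_insert]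

/-- adding prime ideals -/
theorem rq_addE (N : ℕ) (D₁ : RubinData F H G) (h₁ : RQ N D₁)
    [DecidableEq (HeightOneSpectrum (𝓞 F))] (E : Finset (HeightOneSpectrum (𝓞 F))) :
    ∃ (D₂ : RubinData F H G) (N₂ : ℕ), D₂.S = D₁.S ∪ E ∧ RQ N₂ D₂ ∧
      N₂ ∣ N * (clsGroup H (D₁.S : Set (HeightOneSpectrum (𝓞 F)))).relIndex
        (clsGroup H (D₂.S : Set (HeightOneSpectrum (𝓞 F)))) := by
  induction E using Finset.induction_on with
  | empty => exact ⟨D₁, N, by rw [Finset.union_empty], h₁, Dvd.intro _ rfl⟩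
  | insert v E hvE ih =>
    obtain ⟨D₂, N₂, hS, h₂, hdvd⟩ := ih
    by_cases hv : v ∈ D₂.S
    · refine ⟨D₂, N₂, ?_, h₂, hdvd⟩
      rw [Finset.union_insert, ← hS, Finset.insert_eq_of_mem hv]
    · have hsub₁ : clsGroup H (D₁.S : Set (HeightOneSpectrum (𝓞 F))) ≤
          clsGroup H (D₂.S : Set (HeightOneSpectrum (𝓞 F))) := clsGroup_mono (by
        intro u hu
        rw [hS]
        exact Finset.mem_coe.2 (Finset.mem_union_left _ (Finset.mem_coe.1 hu)))
      have hsub₂ : clsGroup H (D₂.S : Set (HeightOneSpectrum (𝓞 F))) ≤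
          clsGroup H ((Finset.cons v D₂.S hv : Finset (HeightOneSpectrum (𝓞 F))) :
            Set (HeightOneSpectrum (𝓞 F))) := clsGroup_mono (by
        intro u hu
        exact Finset.mem_coe.2 (Finset.mem_cons_of_mem (Finset.mem_coe.1 hu)))
      have hmul := Subgroup.relIndex_mul_relIndex _ _ _ hsub₁ hsub₂
      by_cases hσ : D₂.σ v = 1
      · obtain ⟨P, hP⟩ := (t_OVER F H v).1
        obtain ⟨h, hh, hc, hd⟩ := exists_rel_order hsub₂ (cls P)
          (cls_mem (Finset.mem_coe.2 (Finset.mem_cons_self v D₂.S)) hP)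
        obtain ⟨ε, hε, hO⟩ := exists_gen_pow D₂ v hv hσ P hP h hc
        refine ⟨addS D₂ v hv hσ P hP, N₂ * h, ?_,
          rq_addS D₂ v hv hσ P hP N₂ h hh ε hε hO h₂, ?_⟩
        · change Finset.cons v D₂.S hv = _
          rw [Finset.cons_eq_insert, hS, Finset.union_insert]
        · change N₂ * h ∣ N * (clsGroup H (D₁.S : Set (HeightOneSpectrum (𝓞 F)))).relIndex
            (clsGroup H ((Finset.cons v D₂.S hv : Finset (HeightOneSpectrum (𝓞 F))) :
              Set (HeightOneSpectrum (𝓞 F))))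
          rw [← hmul, ← mul_assoc]
          exact mul_dvd_mul hdvd hd
      · refine ⟨addN D₂ v hv hσ, N₂, ?_, rq_addN D₂ N₂ v hv hσ h₂, ?_⟩
        · change Finset.cons v D₂.S hv = _
          rw [Finset.cons_eq_insert, hS, Finset.union_insert]
        · change N₂ ∣ N * (clsGroup H (D₁.S : Set (HeightOneSpectrum (𝓞 F)))).relIndex
            (clsGroup H ((Finset.cons v D₂.S hv : Finset (HeightOneSpectrum (𝓞 F))) :
              Set (HeightOneSpectrum (𝓞 F))))
          rw [← hmul, ← mul_assoc]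
          exact Dvd.dvd.mul_right hdvd _

/-- **Removing prime ideals which split completely.** -/
theorem rq_remove (N : ℕ) [DecidableEq (HeightOneSpectrum (𝓞 F))]
    (E : Finset (HeightOneSpectrum (𝓞 F))) : (∀ v ∈ E, Spl H G v) → ∀ D' : RubinData F H G,
    (∀ D₂ : RubinData F H G, D₂.S = D'.S ∪ E → RQ N D₂) → RQ N D' := by
  induction E using Finset.induction_on with
  | empty =>
    intro _ D' h
    exact h D' (by rw [Finset.union_empty])
  | insert v E hvE ih =>
    intro hE D' h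
    have hE' : ∀ v ∈ E, Spl H G v := fun u hu => hE u (Finset.mem_insert_of_mem hu)
    by_cases hv : v ∈ D'.S
    · refine ih hE' D' fun D₂ hS => h D₂ ?_
      rw [hS, Finset.union_insert, Finset.insert_eq_of_mem (Finset.mem_union_left _ hv)]
    · have hσ : D'.σ v = 1 := (spl_iff D' hv).2 (hE v (Finset.mem_insert_self v E))
      obtain ⟨P, hP⟩ := (t_OVER F H v).1
      refine rq_down D' v hv hσ P hP N (ih hE' (addS D' v hv hσ P hP) fun D₂ hS => h D₂ ?_)
      rw [hS]
      change Finset.cons v D'.S hv ∪ E = _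
      rw [Finset.cons_eq_insert, Finset.insert_union, Finset.union_insert]

/-- **The law for Rubin's conjecture up to a factor.** -/
theorem rubinUpTo_law (N : ℕ) (D₁ D₂ : RubinData F H G)
    (hns : nonSplit H D₁.S ⊆ nonSplit H D₂.S) (h₁ : ∀ T, D₁.Allowed T → RubinUpTo N D₁ T)
    (T : Finset (HeightOneSpectrum (𝓞 F))) (hT : D₂.Allowed T) :
    RubinUpTo (N * classFactor H D₁.S D₂.S) D₂ T := by
  classical
  refine rubin_of_rq D₂ _ (rq_remove _ (D₁.S \ D₂.S) (fun v hv => ?_) D₂ fun D₃ hS => ?_) T hT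
  · rw [Finset.mem_sdiff] at hv
    by_contra hc
    exact hv.2 (hns ⟨hv.1, fun h' => hc ((spl_iff_splitsIn v).2 h')⟩).1
  · obtain ⟨D₄, hS₄, h₄⟩ := rq_addE0 N D₁ (rq_of_rubin D₁ N h₁)
      (D₂.S.filter fun v => ¬ SplitsIn H v) (fun v hv => (Finset.mem_filter.1 hv).2)
    obtain ⟨D₅, N₅, hS₅, h₅, hdvd⟩ := rq_addE N D₄ h₄ D₂.S
    have hSS : D₅.S = D₃.S := by
      rw [hS₅, hS₄, hS]
      ext v
      simp only [Finset.mem_union, Finset.mem_filter, Finset.mem_sdiff]
      tauto
    have e1 : (D₄.S : Set (HeightOneSpectrum (𝓞 F))) =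
        (D₁.S : Set (HeightOneSpectrum (𝓞 F))) ∪ nonSplit H D₂.S := by
      rw [hS₄]
      ext v
      simp only [Finset.coe_union, Finset.coe_filter]
      rfl
    have e2 : (D₅.S : Set (HeightOneSpectrum (𝓞 F))) =
        (D₁.S : Set (HeightOneSpectrum (𝓞 F))) ∪ (D₂.S : Set (HeightOneSpectrum (𝓞 F))) := by
      rw [hS₅, hS₄]
      ext v
      simp only [Finset.coe_union, Finset.coe_filter, Set.mem_union, Finset.mem_coe,
        Set.mem_ofPred_eq]
      tauto
    rw [e1, e2] at hdvd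
    exact rq_indep D₅ _ D₃ hSS (rq_mono D₅ hdvd h₅)

end Pool.Agent.U360.RN
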