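import Pool.Agent.U360.PO.Law

/-!
# Rubin's conjecture up to a factor
-/

set_option autoImplicit false
set_option linter.unusedSectionVars false

open NumberField IsDedekindDomain Filter Topology

noncomputable section

namespace Pool.Agent.U360.RN

open Pool.Agent.K3h30.RS Pool.Agent.U360.RS Pool.Agent.U360.AS Pool.Agent.U360.PO
  Pool.Agent.K3h8.RS Pool.Agent.K3h25.RS

variable {F H G : Type} [Field F] [NumberField F] [Field H] [NumberField H] [Algebra F H]
  [CommGroup G] [Finite G] [MulSemiringAction G H]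

/-- a prime ideal in a set of positive proportion for which the integrality holds -/
theorem exists_goodN (D : RubinData F H G) {U₀ : Subgroup Hˣ} (h₀ : U₀ ≤ US D)
    (u₀ : Wedge G D.r U₀) (bad₀ : Finset (HeightOneSpectrum (𝓞 F)))
    (hI : ∀ t, t ∉ bad₀ → IntAt D h₀ u₀ {t})
    {P : HeightOneSpectrum (𝓞 F) → Prop} (hP : PosProportion P)
    (bad : Finset (HeightOneSpectrum (𝓞 F))) :
    ∃ v, P v ∧ v ∉ bad ∧ v ∉ D.S ∧ Module.finrank ℚ F + 1 < ringChar (𝓞 F ⧸ v.asIdeal) ∧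
      IntAt D h₀ u₀ {v} := by
  classical
  obtain ⟨v, hv, hb⟩ := posProportion_exists hP
    (bad₀ ∪ (bad ∪ D.S ∪ (finite_small F (Module.finrank ℚ F + 1)).toFinset))
  simp only [Finset.mem_union, not_or, Set.Finite.mem_toFinset, Set.mem_ofPred_eq, not_le] at hb
  obtain ⟨h1, ⟨h2, h3⟩, h4⟩ := hb
  exact ⟨v, hv, h2, h3, h4, hI v h1⟩

/-- integrality for all `T` -/
theorem intAt_allN (hM : S_MONO) (hTo : S_TORS) (hFu : S_FROBUNIQ) (hA : S_APPROX)
    (hA0 : S_APPROX0) (hNZ : S_NOZETA) [hG : IsGaloisGroup G F H] (D : RubinData F H G)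
    {U₀ : Subgroup Hˣ} (h₀ : U₀ ≤ US D) (u₀ : Wedge G D.r U₀)
    (bad₀ : Finset (HeightOneSpectrum (𝓞 F)))
    (hI : ∀ t, t ∉ bad₀ → IntAt D h₀ u₀ {t})
    (T : Finset (HeightOneSpectrum (𝓞 F))) (hT : D.Allowed T) :
    IntAt D h₀ u₀ T := by
  classical
  intro f hf hi
  refine mem_range_of_LInt _ fun l hl => ?_
  have hunit : ∀ t ∈ T, ∀ x ∈ US D, ∀ w : HeightOneSpectrum (𝓞 H), Above {t} w →
      w.valuation H (x : H) = 1 := by
    intro t ht x hx w hw
    refine hx.1 w ?_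
    rw [above_iff hw]
    exact fun hh => (Finset.disjoint_left.1 hT.1 (Finset.mem_coe.1 hh)) ht
  by_cases hl1 : ∃ t₀ ∈ T, ringChar (𝓞 F ⧸ t₀.asIdeal) ≠ l
  · -- case A
    obtain ⟨t₀, ht₀, hchar⟩ := hl1
    obtain ⟨Z, hZ1, hZ2⟩ := exists_gen D
    have ht₀S : t₀ ∉ D.S := fun h => (Finset.disjoint_left.1 hT.1 h) ht₀
    obtain ⟨M, hMl⟩ := exists_pow_LInt hl (D.delta (T.erase t₀) * wval D h₀ f u₀)
    obtain ⟨P, hP, hPv⟩ := hA F H G t₀ (D.σ t₀) l M Z (D.frob t₀ ht₀S) (D.unramified t₀ ht₀S) hl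
      hchar (fun z hz w hw => hunit t₀ ht₀ z (hZ1 z hz) w hw)
    obtain ⟨v, hv, hvT, hvS, hvn, hvR⟩ := exists_goodN D h₀ u₀ bad₀ hI hP T
    obtain ⟨hv1, hv2, hv3, hv4⟩ := hPv v hv
    have hσ : D.σ v = D.σ t₀ := hFu F H G v (D.unramified v hvS) _ _ (D.frob v hvS) hv1
    set Tl := (T.filter (fun t => ringChar (𝓞 F ⧸ t.asIdeal) ≠ l)).erase t₀ with hTl
    have hvTl : v ∉ Tl := fun h => hvT (Finset.mem_of_mem_filter v (Finset.mem_of_mem_erase h))
    have hdis : Disjoint D.S (insert v Tl) := by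
      rw [Finset.disjoint_insert_right]
      refine ⟨hvS, Finset.disjoint_left.2 fun t h1 h2 => ?_⟩
      exact (Finset.disjoint_left.1 hT.1 h1)
        (Finset.mem_of_mem_filter t (Finset.mem_of_mem_erase h2))
    have h1 : IntAt D h₀ u₀ (insert v Tl) :=
      hM F H G D U₀ h₀ u₀ v (insert v Tl) (Finset.mem_insert_self _ _) hdis
        (fun x hx hx' => hTo F H G D v hvS hvn x hx hx')
        hvR
    have h2 : LInt l (D.delta (insert v Tl) * wval D h₀ f u₀) := by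
      refine repl D h₀ u₀ T (insert v Tl) hl ?_ h1 f hf hi
      intro x hx t ht
      have hone : ∀ t' ∈ insert v Tl, LocTriv (F := F) l t' (x : Hˣ) := by
        intro t' ht'
        refine ⟨1, fun hd => hl.one_lt.ne' (Nat.dvd_one.1 hd), fun w hw => ?_⟩
        rw [pow_one]
        exact hx.2 w ((above_iff hw).2 (Finset.mem_coe.2 ht'))
      by_cases h3 : ringChar (𝓞 F ⧸ t.asIdeal) = l
      · exact locTriv_of_char hl t h3 _ (hunit t ht _ x.2)
      · by_cases h4 : t = t₀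
        · rw [h4]
          exact (hv4 (x : Hˣ) (hZ2 _ x.2)).1 (hone v (Finset.mem_insert_self _ _))
        · exact hone t (Finset.mem_insert_of_mem (Finset.mem_erase.2 ⟨h4,
            Finset.mem_filter.2 ⟨ht, h3⟩⟩))
    -- comparison of the `δ`
    set R := T.filter (fun t => ringChar (𝓞 F ⧸ t.asIdeal) = l) with hR
    have h5 : D.delta (T.erase t₀) = D.delta R * D.delta Tl := by
      unfold RubinData.delta
      rw [← Finset.prod_union]
      · refine Finset.prod_congr ?_ fun _ _ => rfl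
        ext t
        simp only [hR, hTl, Finset.mem_union, Finset.mem_filter, Finset.mem_erase]
        constructor
        · rintro ⟨h1, h2⟩
          by_cases h3 : ringChar (𝓞 F ⧸ t.asIdeal) = l
          · exact Or.inl ⟨h2, h3⟩
          · exact Or.inr ⟨h1, h2, h3⟩
        · rintro (⟨h1, h2⟩ | ⟨h1, h2, h3⟩)
          · refine ⟨fun h => ?_, h1⟩
            rw [h] at h2
            exact hchar h2
          · exact ⟨h1, h2⟩
      · rw [Finset.disjoint_left]
        intro t h1 h2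
        exact (Finset.mem_filter.1 (Finset.mem_of_mem_erase h2)).2 (Finset.mem_filter.1 h1).2
    obtain ⟨k, hk⟩ : ((l ^ M : ℕ) : ℤ) ∣ (Ideal.absNorm t₀.asIdeal : ℤ) - Ideal.absNorm v.asIdeal :=
      (Nat.modEq_iff_dvd.1 hv3)
    have h6 : (1 - MonoidAlgebra.single (D.σ t₀)⁻¹ (Ideal.absNorm t₀.asIdeal : ℚ) :
        MonoidAlgebra ℚ G) = (1 - MonoidAlgebra.single (D.σ v)⁻¹ (Ideal.absNorm v.asIdeal : ℚ)) +
        (l : MonoidAlgebra ℚ G) ^ M * toQ (MonoidAlgebra.single (D.σ v)⁻¹ (-k)) := by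
      have h7 : (Ideal.absNorm t₀.asIdeal : ℚ) = Ideal.absNorm v.asIdeal + (l : ℚ) ^ M * k := by
        have : (Ideal.absNorm t₀.asIdeal : ℤ) = Ideal.absNorm v.asIdeal + (l ^ M : ℕ) * k := by
          linarith
        exact_mod_cast this
      have h8 : (l : MonoidAlgebra ℚ G) ^ M * toQ (MonoidAlgebra.single (D.σ v)⁻¹ (-k)) =
          MonoidAlgebra.single (D.σ v)⁻¹ (-((l : ℚ) ^ M * k)) := by
        have : toQ (MonoidAlgebra.single (D.σ v)⁻¹ (-k)) =
            MonoidAlgebra.single (D.σ v)⁻¹ (-k : ℚ) := by simp [toQ]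
        rw [this, ← Nat.cast_pow, ← nsmul_eq_mul, MonoidAlgebra.smul_single, nsmul_eq_mul]
        congr 1
        push_cast
        ring
      rw [h8, hσ, h7, sub_add, ← MonoidAlgebra.single_sub]
      congr 2
      ring
    have h9 : D.delta T = (1 - MonoidAlgebra.single (D.σ t₀)⁻¹ (Ideal.absNorm t₀.asIdeal : ℚ)) *
        D.delta (T.erase t₀) := by
      rw [← delta_insert D (Finset.notMem_erase t₀ T), Finset.insert_erase ht₀]
    have h10 : D.delta T * wval D h₀ f u₀ =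
        D.delta R * (D.delta (insert v Tl) * wval D h₀ f u₀) +
        ((l : MonoidAlgebra ℚ G) ^ M * toQ (MonoidAlgebra.single (D.σ v)⁻¹ (-k))) *
          (D.delta (T.erase t₀) * wval D h₀ f u₀) := by
      rw [h9, h6, delta_insert D hvTl, h5]
      ring
    rw [h10]
    exact LInt.add hl (LInt.mul hl (delta_mem D R) h2) (hMl _ ⟨_, rfl⟩)
  · -- case B
    push Not at hl1
    have hbig : ∃ t ∈ T, Module.finrank ℚ F + 1 < ringChar (𝓞 F ⧸ t.asIdeal) := by
      rcases hT.2 with ⟨x, hx, y, hy, hxy⟩ | h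
      · exact absurd ((hl1 x hx).trans (hl1 y hy).symm) hxy
      · exact h
    obtain ⟨t, ht, htn⟩ := hbig
    have htS : t ∉ D.S := fun h => (Finset.disjoint_left.1 hT.1 h) ht
    have hz := hNZ F H t (D.unramified t htS) htn
    rw [hl1 t ht] at hz
    obtain ⟨P, hP, hPv⟩ := hA0 F H G l hl hz
    obtain ⟨v, hv, hvT, hvS, hvn, hvR⟩ := exists_goodN D h₀ u₀ bad₀ hI hP T
    obtain ⟨hv1, hv2⟩ := hPv v hv
    have hσ : D.σ v = 1 := hFu F H G v (D.unramified v hvS) _ _ (D.frob v hvS) hv1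
    have h2 : LInt l (D.delta {v} * wval D h₀ f u₀) := by
      refine repl D h₀ u₀ T {v} hl ?_ hvR f hf hi
      intro x _ t ht
      exact locTriv_of_char hl t (hl1 t ht) _ (hunit t ht _ x.2)
    have hnorm : 1 ≤ Ideal.absNorm v.asIdeal := by
      have h0 : Ideal.absNorm v.asIdeal ≠ 0 := by
        rw [Ne, Ideal.absNorm_eq_zero_iff]
        exact v.ne_bot
      omega
    have h3 : D.delta {v} * wval D h₀ f u₀ =
        -(((Ideal.absNorm v.asIdeal - 1 : ℕ) : MonoidAlgebra ℚ G) * wval D h₀ f u₀) := by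
      unfold RubinData.delta
      rw [Finset.prod_singleton, hσ, inv_one, Nat.cast_sub hnorm, Nat.cast_one,
        ← MonoidAlgebra.natCast_def]
      ring
    rw [h3] at h2
    have h4 : LInt l (((Ideal.absNorm v.asIdeal - 1 : ℕ) : MonoidAlgebra ℚ G) *
        wval D h₀ f u₀) := by
      have h5 := LInt.mul hl (neg_mem (one_mem (toQ (G := G)).range)) h2
      rwa [neg_mul_neg, one_mul] at h5
    exact LInt.mul hl (delta_mem D T) (LInt.of_nat hl hv2 h4)


theorem intAt_all' [hG : IsGaloisGroup G F H] (D : RubinData F H G) {U₀ : Subgroup Hˣ}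
    (h₀ : U₀ ≤ US D) (u₀ : Wedge G D.r U₀) (bad₀ : Finset (HeightOneSpectrum (𝓞 F)))
    (hI : ∀ t, t ∉ bad₀ → IntAt D h₀ u₀ {t})
    (T : Finset (HeightOneSpectrum (𝓞 F))) (hT : D.Allowed T) : IntAt D h₀ u₀ T :=
  intAt_allN Pool.Agent.K3h66.RS.t_MONO (Pool.Agent.K3h23.RS.t_TORS
    Pool.Agent.K3h36.RS.t_NOZETA) Pool.Agent.K3h23.RS.t_FROBUNIQ
    (Pool.Agent.K3h8.RS.t_APPROX Pool.Agent.K3h73.RS.t_CHEB)
    (Pool.Agent.K3h36.RS.t_APPROX0 Pool.Agent.K3h73.RS.t_CHEB) Pool.Agent.K3h36.RS.t_NOZETA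
    D h₀ u₀ bad₀ hI T hT

/-- **Rubin's conjecture up to the factor `N`** for the data `D` and `T`: `N η` belongs to Rubin's
lattice. -/
def RubinUpTo (N : ℕ) (D : RubinData F H G) (T : Finset (HeightOneSpectrum (𝓞 F))) : Prop :=
  ∃ u : Wedge G D.r (D.U T), D.InER u ∧ D.IsStark T u ∧
    ∀ ψ : Fin D.r → GHom G (D.U T), ∃ z : MonoidAlgebra ℤ G,
      (N : MonoidAlgebra ℚ G) * u.value ψ = toQ z

/-- the property used in the proofs -/
def RQ (N : ℕ) (D : RubinData F H G) : Prop :=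
  ∃ u : Wedge G D.r (D.U ∅), D.InER u ∧ D.IsStark ∅ u ∧
    ∃ bad : Finset (HeightOneSpectrum (𝓞 F)), ∀ t, t ∉ bad →
      IntAt D (U_le D ∅) (smulW N u) {t}

theorem rubinUpTo_one (D : RubinData F H G) (T : Finset (HeightOneSpectrum (𝓞 F))) :
    RubinUpTo 1 D T ↔ D.Rubin T := by
  unfold RubinUpTo RubinData.Rubin RubinData.IsIntegral
  simp only [Nat.cast_one, one_mul]
  constructor
  · rintro ⟨u, h1, h2, h3⟩
    exact ⟨u, h1, h3, h2⟩
  · rintro ⟨u, h1, h2, h3⟩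
    exact ⟨u, h1, h3, h2⟩

/-- Rubin's conjecture up to `N` implies the integrality -/
theorem intAt_of_rubinUpTo [hG : IsGaloisGroup G F H] (D : RubinData F H G) (N : ℕ)
    {U₀ : Subgroup Hˣ} (h₀ : U₀ ≤ US D) (u₀ : Wedge G D.r U₀) (e₀ : D.InER u₀)
    (s₀ : D.IsStark ∅ u₀) (T : Finset (HeightOneSpectrum (𝓞 F))) (h : RubinUpTo N D T) :
    IntAt D h₀ (smulW N u₀) T := by
  obtain ⟨u, e, s, hint⟩ := h
  intro f hf hi
  have h1 := t_UNIQ' F H G D ∅ T U₀ (D.U T) h₀ (U_le D T) u₀ u e₀ e s₀ s f hf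
  have h2 : D.delta ∅ = 1 := by
    unfold RubinData.delta
    rw [Finset.prod_empty]
  rw [h2, one_mul] at h1
  rw [wval_smulW, mul_left_comm, h1]
  choose ψ hψ using fun i => exists_restrict D T (f i) (hf i) (hi i)
  obtain ⟨z, hz⟩ := hint ψ
  refine ⟨z, ?_⟩
  rw [← hz]
  congr 1
  unfold Wedge.value wval
  refine Finset.sum_congr rfl fun k _ => ?_
  congr 1
  rw [RingHom.map_det]
  congr 1
  ext i j : 1
  simp only [RingHom.mapMatrix_apply, Matrix.map_apply, Matrix.of_apply]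
  exact hψ i (u.x k j)

section

variable [hG : IsGaloisGroup G F H] (D : RubinData F H G) (v : HeightOneSpectrum (𝓞 F))
  (hv : v ∉ D.S) (hσ : D.σ v = 1) (P : HeightOneSpectrum (𝓞 H)) (hP : Above {v} P)

/-- the values for a multiple -/
theorem wval_wedgeUp_N (h N : ℕ) (hh : 0 < h) (ε : Hˣ)
    (hε : ε ∈ US (addS D v hv hσ P hP)) (u₀ : Wedge G D.r (D.U ∅))
    (f : Fin (addS D v hv hσ P hP).r → Additive (US (addS D v hv hσ P hP)) →+
      MonoidAlgebra ℚ G) :
    (N : MonoidAlgebra ℚ G) *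
        wval (addS D v hv hσ P hP) (U_le _ ∅) f (wedgeUp D v hv hσ P hP h ε hε u₀) =
      wval (addS D v hv hσ P hP) (U_le _ ∅) f
        (wedgeUp D v hv hσ P hP h ε hε (smulW N u₀)) := by
  apply natCast_cancel hh
  have e1 := wval_wedgeUp_smul D v hv hσ P hP h N hh ε hε u₀ f
  have e2 := wval_wedgeUp_smul D v hv hσ P hP h 1 hh ε hε (smulW N u₀) f
  have e3 : wval (addS D v hv hσ P hP) (U_le _ ∅) f
      (wedgeUp D v hv hσ P hP 1 ε hε (smulW 1 (smulW N u₀))) =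
      wval (addS D v hv hσ P hP) (U_le _ ∅) f
      (wedgeUp D v hv hσ P hP 1 ε hε (smulW N u₀)) := by
    unfold wval
    refine Finset.sum_congr rfl fun k _ => ?_
    refine congrArg (fun z => z * Matrix.det (Matrix.of fun i j => f i (Additive.ofMul
      ⟨((wedgeUp D v hv hσ P hP 1 ε hε (smulW N u₀)).x k j : Hˣ),
        U_le _ ∅ ((wedgeUp D v hv hσ P hP 1 ε hε (smulW N u₀)).x k j).2⟩))) ?_
    change MonoidAlgebra.single 1 (-(((1 : ℕ) : ℚ)⁻¹)) * (((1 : ℕ) : MonoidAlgebra ℚ G) *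
      ((N : MonoidAlgebra ℚ G) * u₀.c k)) =
      MonoidAlgebra.single 1 (-(((1 : ℕ) : ℚ)⁻¹)) * ((N : MonoidAlgebra ℚ G) * u₀.c k)
    rw [Nat.cast_one, Nat.cast_one, one_mul]
  rw [e3, e1, one_mul] at e2
  rw [← e2]
  push_cast
  ring

end

end Pool.Agent.U360.RN
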