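import Pool.Agent.U360.RN.All

/-!
# Rubin's conjecture up to a factor, continued
-/

set_option autoImplicit false
set_option linter.unusedSectionVars false

open NumberField IsDedekindDomain Filter Topology

noncomputable section

namespace Pool.Agent.U360.RN

open Pool.Agent.K3h30.RS Pool.Agent.U360.RS Pool.Agent.U360.AS Pool.Agent.U360.PO
  Pool.Agent.K3h8.RS Pool.Agent.K3h25.RS

variable {F H G : Type} [Field F] [NumberField F] [Field H] [NumberField H] [Algebra F H]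
  [CommGroup G] [Finite G] [MulSemiringAction G H]

/-- integrality implies Rubin's conjecture up to `N` for `T` -/
theorem rubinUpTo_of_intAt [hG : IsGaloisGroup G F H] (D : RubinData F H G) (N : ℕ)
    (u₀ : Wedge G D.r (D.U ∅)) (e₀ : D.InER u₀) (s₀ : D.IsStark ∅ u₀)
    (T : Finset (HeightOneSpectrum (𝓞 F))) (hT : Disjoint D.S T)
    (h : IntAt D (U_le D ∅) (smulW N u₀) T) : RubinUpTo N D T := by
  letI := actionA (H := H) (G := G) Pool.Agent.K3h25.RS.t_TRANS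
    (D.S : Set (HeightOneSpectrum (𝓞 F))) ∅
  have hfg : AddGroup.FG (Additive (US D)) := fgA Pool.Agent.K3h25.RS.t_OVER D.S
  obtain ⟨w, hw0, hw⟩ := exists_torsion (Additive (US D))
  obtain ⟨d, m, hm0, hm, -, -⟩ := decompose Pool.Agent.K3h73.RS.t_LAM Pool.Agent.K3h12.RSE.t_EXT
    Pool.Agent.K3h44.RS.t_DLOG Pool.Agent.K3h44.RS.t_FROBU Pool.Agent.K3h25.RS.t_TRANS
    Pool.Agent.K3h25.RS.t_OVER D T hT w hw
  have h2 : D.delta ∅ = 1 := by
    unfold RubinData.delta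
    rw [Finset.prod_empty]
  refine ⟨moved D u₀ 1 m hm, moved_er D u₀ 1 m hm e₀, ?_, ?_⟩
  swap
  · intro ψ
    -- the rational extension
    let f : Fin D.r → Additive (US D) →+ MonoidAlgebra ℚ G := fun i =>
      { toFun := fun x => ((m : ℚ)⁻¹) • toQ ((ψ i).f (Additive.ofMul
          ⟨((Additive.toMul x : US D) : Hˣ) ^ m, hm (Additive.toMul x)⟩))
        map_zero' := by
          have : (Additive.ofMul (⟨((Additive.toMul (0 : Additive (US D)) : US D) : Hˣ) ^ m,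
              hm (Additive.toMul 0)⟩ : D.U T)) = 0 := by
            apply Additive.toMul.injective
            ext
            simp
          rw [this, map_zero, map_zero, smul_zero]
        map_add' := by
          intro x y
          rw [← smul_add, ← map_add, ← map_add]
          congr 3
          apply Additive.toMul.injective
          ext
          simp [mul_pow] }
    have hfm : ∀ i (x : US D), toQ ((ψ i).f (Additive.ofMul ⟨(x : Hˣ) ^ m, hm x⟩)) =
        (m : MonoidAlgebra ℚ G) * f i (Additive.ofMul x) := by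
      intro i x
      change _ = (m : MonoidAlgebra ℚ G) * (((m : ℚ)⁻¹) •
        toQ ((ψ i).f (Additive.ofMul ⟨(x : Hˣ) ^ m, hm x⟩)))
      rw [mul_smul_comm]
      have h3 : (m : MonoidAlgebra ℚ G) = ((m : ℚ)) • (1 : MonoidAlgebra ℚ G) := by
        rw [Algebra.smul_def, mul_one, map_natCast]
      rw [h3, smul_mul_assoc, one_mul, smul_smul, inv_mul_cancel₀ (by positivity), one_smul]
    have hf1 : ∀ i, IsEquiv D (f i) := by
      intro i γ x y hxy
      apply natCast_cancel hm0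
      rw [← hfm, mul_left_comm, ← hfm]
      have h3 : toQ (MonoidAlgebra.single γ (1 : ℤ)) = MonoidAlgebra.single γ (1 : ℚ) := by
        simp [toQ]
      rw [← h3, ← map_mul]
      congr 1
      refine (ψ i).equiv γ _ _ ?_
      change (y : Hˣ) ^ m = act γ ((x : Hˣ) ^ m)
      rw [hxy, act_pow]
    have hf2 : ∀ i, IntOn D T (f i) := by
      intro i x hx
      refine ⟨(ψ i).f (Additive.ofMul ⟨(x : Hˣ), hx⟩), ?_⟩
      apply natCast_cancel hm0
      rw [← hfm]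
      have h3 : (Additive.ofMul (⟨(x : Hˣ) ^ m, hm x⟩ : D.U T)) =
          m • Additive.ofMul (⟨(x : Hˣ), hx⟩ : D.U T) := rfl
      rw [h3, map_nsmul, nsmul_eq_mul, map_mul, map_natCast]
    obtain ⟨z, hz⟩ := h f hf1 hf2
    refine ⟨z, ?_⟩
    rw [hz, wval_smulW, mul_left_comm]
    congr 1
    unfold Wedge.value wval
    rw [Finset.mul_sum]
    change (∑ k : Fin u₀.n, (((m : ℚ)⁻¹ ^ D.r) • (D.delta T * (1 * u₀.c k))) *
      toQ (Matrix.det (Matrix.of fun i j =>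
        (ψ i).f (Additive.ofMul ⟨(u₀.x k j : Hˣ) ^ m, hm ⟨(u₀.x k j : Hˣ),
          mem_US_of_mem D ∅ (u₀.x k j).2⟩⟩)))) = _
    refine Finset.sum_congr rfl fun k _ => ?_
    rw [RingHom.map_det]
    have h4 : (toQ (G := G)).mapMatrix (Matrix.of fun i j =>
        (ψ i).f (Additive.ofMul ⟨(u₀.x k j : Hˣ) ^ m, hm ⟨(u₀.x k j : Hˣ),
          mem_US_of_mem D ∅ (u₀.x k j).2⟩⟩)) =
        Matrix.of fun i j => (m : MonoidAlgebra ℚ G) *
          f i (Additive.ofMul ⟨(u₀.x k j : Hˣ), U_le D ∅ (u₀.x k j).2⟩) := by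
      ext i j : 1
      simp only [RingHom.mapMatrix_apply, Matrix.map_apply, Matrix.of_apply]
      exact hfm i ⟨(u₀.x k j : Hˣ), U_le D ∅ (u₀.x k j).2⟩
    rw [h4, det_natCast_mul, smul_natCast_mul hm0, one_mul, mul_assoc]
  · refine Pool.Agent.K3h62.RS.t_LFUN F H G D ∅ T (D.delta T) ?_ (D.U ∅) (D.U T) u₀ _ ?_ s₀
    · rw [h2, one_mul]
    · rw [moved_regulator D u₀ 1 hm0 hm, mul_one]


section

attribute [local instance] instA

variable [hG : IsGaloisGroup G F H] (D : RubinData F H G)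

theorem rq_of_rubin (N : ℕ) (h : ∀ T, D.Allowed T → RubinUpTo N D T) : RQ N D := by
  classical
  have hfin : {l : HeightOneSpectrum (𝓞 F) | ringChar (𝓞 F ⧸ l.asIdeal) ≤
      Module.finrank ℚ F + 1}.Finite := finite_small F _
  obtain ⟨bad, hbaddef⟩ : ∃ bad : Finset (HeightOneSpectrum (𝓞 F)),
    bad = D.S ∪ hfin.toFinset := ⟨_, rfl⟩
  have hall : ∀ l, l ∉ bad → D.Allowed {l} := by
    intro l hl
    rw [hbaddef, Finset.mem_union, not_or, Set.Finite.mem_toFinset, Set.mem_ofPred_eq,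
      not_le] at hl
    refine ⟨Finset.disjoint_singleton_right.2 hl.1, Or.inr ⟨l, ?_, hl.2⟩⟩
    exact Finset.mem_singleton_self l
  obtain ⟨t, ht, -, -⟩ := exists_sigma D 1 bad
  have hS : D.Stark {t} := by
    obtain ⟨u, e, s, -⟩ := h {t} (hall t ht)
    exact ⟨u, e, s⟩
  obtain ⟨u₀, e₀, s₀⟩ := stark_all D hS ∅ (Finset.disjoint_empty_right _)
  exact ⟨u₀, e₀, s₀, bad, fun l hl =>
    intAt_of_rubinUpTo D N (U_le D ∅) u₀ e₀ s₀ {l} (h {l} (hall l hl))⟩

theorem rubin_of_rq (N : ℕ) (h : RQ N D) : ∀ T, D.Allowed T → RubinUpTo N D T := by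
  obtain ⟨u₀, e₀, s₀, bad, hI⟩ := h
  intro T hT
  exact rubinUpTo_of_intAt D N u₀ e₀ s₀ T hT.1 (intAt_all' D (U_le D ∅) (smulW N u₀) bad hI T hT)

theorem rq_mono {N M : ℕ} (h : N ∣ M) (hq : RQ N D) : RQ M D := by
  obtain ⟨k, rfl⟩ := h
  obtain ⟨u, hE, hS, bad, hI⟩ := hq
  refine ⟨u, hE, hS, bad, fun t ht f hf1 hf2 => ?_⟩
  have h1 := hI t ht f hf1 hf2
  rw [wval_smulW] at h1 ⊢
  have e : D.delta {t} * (((N * k : ℕ) : MonoidAlgebra ℚ G) * wval D (U_le D ∅) f u) =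
      (k : MonoidAlgebra ℚ G) * (D.delta {t} * ((N : MonoidAlgebra ℚ G) *
        wval D (U_le D ∅) f u)) := by
    push_cast
    ring
  rw [e]
  exact (ZG G).mul_mem (natCast_mem (ZG G) k) h1

theorem intAt_of_wval {U₁ U₂ : Subgroup Hˣ} (hU₁ : U₁ ≤ US D)
    (hU₂ : U₂ ≤ US D) (u₁ : Wedge G D.r U₁) (u₂ : Wedge G D.r U₂)
    (h : ∀ f : Fin D.r → Additive (US D) →+ MonoidAlgebra ℚ G, (∀ j, IsEquiv D (f j)) →
      wval D hU₁ f u₁ = wval D hU₂ f u₂) (T : Finset (HeightOneSpectrum (𝓞 F)))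
    (h₁ : IntAt D hU₁ u₁ T) : IntAt D hU₂ u₂ T := by
  intro f hf1 hf2
  rw [← h f hf1]
  exact h₁ f hf1 hf2

theorem rq_addN (N : ℕ) (v : HeightOneSpectrum (𝓞 F)) (hv : v ∉ D.S) (hσ : D.σ v ≠ 1)
    (h : RQ N D) : RQ N (addN D v hv hσ) := by
  obtain ⟨u, hE, hS, bad, hI⟩ := h
  obtain ⟨u', hE', hS', hu⟩ := stark_addN D v hv hσ u hE hS
  refine ⟨u', hE', hS', bad, fun t ht f hf1 hf2 => ?_⟩
  have e2 : (addN D v hv hσ).delta {t} = D.delta {t} := rfl
  have h1 := hI t ht (fun j => resF D (addN D v hv hσ) (subset_cons' hv) (f j))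
    (fun j => resF_isEquiv _ _ _ _ (hf1 j)) (fun j => resF_intOn _ _ _ t _ (hf2 j))
  rw [wval_smulW] at h1
  rw [wval_smulW (addN D v hv hσ), hu, e2]
  have e : D.delta {t} * ((N : MonoidAlgebra ℚ G) * ((1 - MonoidAlgebra.single (D.σ v)⁻¹ 1) *
      wval D (U_le D ∅) (fun j => resF D (addN D v hv hσ) (subset_cons' hv) (f j)) u)) =
      (1 - MonoidAlgebra.single (D.σ v)⁻¹ 1) * (D.delta {t} * ((N : MonoidAlgebra ℚ G) *
      wval D (U_le D ∅) (fun j => resF D (addN D v hv hσ) (subset_cons' hv) (f j)) u)) := by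
    ring
  rw [e]
  exact (ZG G).mul_mem ((ZG G).sub_mem (ZG G).one_mem (single_mem _)) h1

theorem rq_indep (N : ℕ) (D' : RubinData F H G) (hS : D.S = D'.S) (h : RQ N D) :
    RQ N D' := by
  classical
  obtain ⟨u, hE, hSt, bad, hI⟩ := h
  have hsub : D.S ⊆ D'.S := by rw [hS]
  obtain ⟨π, γ, u', hE', hS', hu⟩ := stark_indep D D' hS hsub u hE hSt
  refine ⟨u', hE', hS', bad ∪ D.S, fun t ht f hf1 hf2 => ?_⟩
  rw [Finset.mem_union, not_or] at ht
  have e2 : D'.delta {t} = D.delta {t} := by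
    unfold RubinData.delta
    rw [Finset.prod_singleton, Finset.prod_singleton, sigma_indep D D' hS ht.2]
  have h1 := hI t ht.1 (fun j => resF D D' hsub (f (π.symm j)))
    (fun j => resF_isEquiv _ _ _ _ (hf1 _)) (fun j => resF_intOn _ _ _ t _ (hf2 _))
  rw [wval_smulW] at h1
  rw [wval_smulW, hu, e2]
  have e : D.delta {t} * ((N : MonoidAlgebra ℚ G) * (MonoidAlgebra.single γ⁻¹ 1 *
      wval D (U_le D ∅) (fun j => resF D D' hsub (f (π.symm j))) u)) =
      MonoidAlgebra.single γ⁻¹ 1 * (D.delta {t} * ((N : MonoidAlgebra ℚ G) *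
      wval D (U_le D ∅) (fun j => resF D D' hsub (f (π.symm j))) u)) := by
    ring
  rw [e]
  exact (ZG G).mul_mem (single_mem _) h1

variable (v : HeightOneSpectrum (𝓞 F)) (hv : v ∉ D.S) (hσ : D.σ v = 1)
  (P : HeightOneSpectrum (𝓞 H)) (hP : Above {v} P)

theorem rq_addS (N : ℕ) (h : ℕ) (hh : 0 < h) (ε : Hˣ)
    (hε : ε ∈ US (addS D v hv hσ P hP)) (hO : OG G P ε = (h : MonoidAlgebra ℤ G))
    (hq : RQ N D) : RQ (N * h) (addS D v hv hσ P hP) := by
  classical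
  obtain ⟨u, hE, hS, bad₀, hI⟩ := hq
  have hfin : {l : HeightOneSpectrum (𝓞 F) | ringChar (𝓞 F ⧸ l.asIdeal) ≤
      Module.finrank ℚ F + 1}.Finite := finite_small F _
  obtain ⟨bad, hbd⟩ : ∃ bad : Finset (HeightOneSpectrum (𝓞 F)),
    bad = bad₀ ∪ D.S ∪ hfin.toFinset := ⟨_, rfl⟩
  have hmem : ∀ l, l ∉ bad → l ∉ bad₀ ∧ l ∉ D.S ∧
      Module.finrank ℚ F + 1 < ringChar (𝓞 F ⧸ l.asIdeal) := by
    intro l hl
    rw [hbd] at hl
    simp only [Finset.mem_union, not_or, Set.Finite.mem_toFinset, Set.mem_ofPred_eq,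
      not_le] at hl
    exact ⟨hl.1.1, hl.1.2, hl.2⟩
  have hbad : ∀ l, l ∉ bad → l ∉ D.S ∧
      Module.finrank ℚ F + 1 < ringChar (𝓞 F ⧸ l.asIdeal) := fun l hl => (hmem l hl).2
  obtain ⟨n, hn, hnI, ⟨τ, hτ⟩, hk⟩ := exists_root D bad
  have hfinN : {w : HeightOneSpectrum (𝓞 F) | w.valuation F ((n : ℕ) : F) < 1}.Finite :=
    Pool.Agent.K3h43.RS.finite_lt (H := F) ((n : ℕ) : F) (Nat.cast_ne_zero.2 hn.ne')
  refine ⟨wedgeUp D v hv hσ P hP h ε hε u, inER_wedgeUp D v hv hσ P hP h ε hε u hE,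
    isStark_wedgeUp D v hv hσ P hP h hh ε hε hO u hS,
    bad ∪ {v} ∪ hfinN.toFinset, fun t ht => ?_⟩
  simp only [Finset.mem_union, not_or, Finset.mem_singleton, Set.Finite.mem_toFinset,
    Set.mem_ofPred_eq, not_lt] at ht
  obtain ⟨⟨htb, htv⟩, htn⟩ := ht
  have htn0 : t.valuation F ((n : ℕ) : F) = 1 := by
    refine le_antisymm ?_ htn
    have e : (((n : ℕ) : 𝓞 F) : F) = ((n : ℕ) : F) := map_natCast (algebraMap (𝓞 F) F) n
    rw [← e]
    exact t.valuation_le_one (K := F) ((n : ℕ) : 𝓞 F)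
  refine intAt_of_wval (addS D v hv hσ P hP) (U_le _ ∅) (U_le _ ∅) _ _ (fun f _ => ?_) {t}
    (intAt_addS D v hv hσ P hP ε hε (smulW N u) bad hbad
      (fun l hl => hI l (hmem l hl).1) n hn hnI τ hτ hk t htb htv fun w hw => ?_)
  · rw [wval_smulW (addS D v hv hσ P hP)]
    exact wval_wedgeUp_smul D v hv hσ P hP h N hh ε hε u f
  · have h1 := val_eq t w (above_singleton.1 hw) ((n : ℕ) : F) htn0
    rwa [map_natCast] at h1

theorem rq_down (N : ℕ) (hq : RQ N (addS D v hv hσ P hP)) : RQ N D := by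
  classical
  obtain ⟨u', e', s', bad, hI⟩ := hq
  obtain ⟨u₀, e₀, s₀⟩ := stark_down D v hv hσ P hP ⟨u', e', s'⟩
  obtain ⟨h, ε, hh, hε, hO⟩ := exists_eps_pow D v hv hσ P hP
  refine ⟨u₀, e₀, s₀, bad ∪ D.S ∪ {v}, fun t ht => ?_⟩
  simp only [Finset.mem_union, not_or, Finset.mem_singleton] at ht
  obtain ⟨⟨htb, htS⟩, htv⟩ := ht
  refine intAt_down D v hv hσ P hP h hh ε hε hO (smulW N u₀) t htS htv ?_
  refine intAt_of_wval (addS D v hv hσ P hP) (U_le _ ∅) (U_le _ ∅) (smulW N u') _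
    (fun f hf => ?_) {t} (hI t htb)
  have h1 := t_UNIQ' F H G (addS D v hv hσ P hP) ∅ ∅ _ _ (U_le _ ∅) (U_le _ ∅) u'
    (wedgeUp D v hv hσ P hP h ε hε u₀) e' (inER_wedgeUp D v hv hσ P hP h ε hε u₀ e₀) s'
    (isStark_wedgeUp D v hv hσ P hP h hh ε hε hO u₀ s₀) f hf
  have h2 : (addS D v hv hσ P hP).delta ∅ = 1 := by
    unfold RubinData.delta
    rw [Finset.prod_empty]
  rw [h2, one_mul, one_mul] at h1
  rw [wval_smulW (addS D v hv hσ P hP), h1]
  exact wval_wedgeUp_N D v hv hσ P hP h N hh ε hε u₀ f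

end

end Pool.Agent.U360.RN
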